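import Pool.Agent.Helper72.CTS.Final

/-!
# Convex position by translation and scaling is NP-hard

An instance is a list `I` of lists of rational points.  `I` belongs to `CTS` if there are real
factors `lam i > 0` and translation vectors `t i` such that every point of the union of the sets
`lam i • I[i] + t i` lies on the boundary of the convex hull of that union.

The proof is a reduction from satisfiability of formulas with three literals per clause.  Triples
of collinear points force all scale factors to be equal and let each moving set slide in one
direction only (horizontally or vertically) along the sides of a box.  In two opposite corners of
the box a horizontally sliding point and a vertically sliding point exclude each other, which makes
the position of every horizontally sliding set binary; in the two other corners triples of points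
encode the clauses.
-/

set_option autoImplicit false

namespace Pool.Agent.Results.MP_1225bd_lc.CTSHard

open Pool.Agent.PolyTime Pool.Agent.Helper72.CTS

theorem result : NPHard CTS := npHard_CTS

end Pool.Agent.Results.MP_1225bd_lc.CTSHard
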